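import Pool.Agent.Mob.Stmts

/-!
# Module FVL: finite volume against infinite volume, at positive height
-/

set_option autoImplicit false

open MeasureTheory ProbabilityTheory Function

noncomputable section

namespace Pool.Agent.Mob.H65

open Pool.Agent.Anderson Pool.Agent.Loc Pool.Agent.Helper54.Bal Pool.Agent.Mob

variable {d : ℕ}

theorem gz_symm (V : Site d → ℝ) (Λ : Finset (Site d)) (z : ℂ) (x y : Site d) :
    gz V Λ z x y = gz V Λ z y x := by
  unfold gz
  by_cases h : x ∈ Λ ∧ y ∈ Λ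
  · rw [dif_pos h, dif_pos h.symm]
    have h1 : (z • (1 : Matrix Λ Λ ℂ) - HC V Λ).transpose = z • (1 : Matrix Λ Λ ℂ) - HC V Λ := by
      rw [Matrix.transpose_sub, Matrix.transpose_smul, Matrix.transpose_one]
      congr 1
      unfold HC
      rw [← Matrix.transpose_map, HM_symm]
    have h2 := Matrix.transpose_nonsing_inv (z • (1 : Matrix Λ Λ ℂ) - HC V Λ)
    rw [h1] at h2
    conv_rhs => rw [← h2]
    rfl
  · rw [dif_neg h, dif_neg fun h' => h h'.symm]

/-- the finite volume operator on a function -/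
theorem mul_fun (V : Site d → ℝ) (Λ : Finset (Site d)) (z : ℂ) (φ : Site d → ℂ) (u : Λ) :
    (z • (1 : Matrix Λ Λ ℂ) - HC V Λ).mulVec (fun v : Λ => φ v) u =
      z * φ u - (V u : ℂ) * φ u - lap (fun v => if v ∈ Λ then φ v else 0) u := by
  rw [lap_indicator, Matrix.sub_mulVec, Pi.sub_apply, Matrix.smul_mulVec, Matrix.one_mulVec,
    Pi.smul_apply, smul_eq_mul, ← Finset.sum_coe_sort Λ (fun y => (hop (u : Site d) y : ℂ) * φ y)]
  have h2 : (HC V Λ).mulVec (fun v : Λ => φ v) u =
      (∑ v : Λ, (hop (u : Site d) v : ℂ) * φ v) + (V u : ℂ) * φ u := by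
    simp only [Matrix.mulVec, dotProduct, HC, Matrix.map_apply, HM, Matrix.of_apply]
    have h3 : ∀ v : Λ, ((hop (u : Site d) (v : Site d) + if u = v then V u else 0 : ℝ) : ℂ) *
        φ v = (hop (u : Site d) (v : Site d) : ℂ) * φ v +
          (if u = v then (V u : ℂ) * φ u else 0) := by
      intro v
      by_cases h : u = v
      · subst h; simp; ring
      · simp [h]
    rw [Finset.sum_congr rfl fun v _ => h3 v, Finset.sum_add_distrib]
    simp
  rw [h2]
  ring

theorem fvl (hgzb : GzbStmt) : FvlStmt := by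
  intro d V Λ η E ε ℓ x y hη hε hx hy hout hxy hG
  obtain ⟨z, hzz⟩ : ∃ z, z = zz η E := ⟨_, rfl⟩
  rw [← hzz] at hG ⊢
  have him : z.im = η := by
    rw [hzz]
    unfold zz
    simp
  have hz : z.im ≠ 0 := by
    rw [him]
    exact hη.ne'
  obtain ⟨φ, hφ⟩ : ∃ φ : Site d → ℂ, φ = G V z (del x) := ⟨_, rfl⟩
  have hG' : ∀ u, ℓ ≤ sd x u → ‖φ u‖ ≤ ε := by
    intro u hu
    rw [hφ]
    exact hG u hu
  have hdet := ((hgzb d V Λ x y).2.1 z hz).1
  have hbd : ∀ v, ‖gz V Λ z y v‖ ≤ η⁻¹ := by
    intro v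
    have := ((hgzb d V Λ y v).2.1 z hz).2
    rwa [him, abs_of_pos hη] at this
  obtain ⟨b, hb⟩ : ∃ b : Site d → ℂ, b = lap (fun v => if v ∈ Λ then 0 else φ v) := ⟨_, rfl⟩
  have hb2 : ∀ v, ‖b v‖ ≤ 2 * d * ε := by
    intro v
    rw [hb]
    apply norm_lap_le
    intro u _
    by_cases hu : u ∈ Λ
    · rw [if_pos hu, norm_zero]
      exact hε
    · rw [if_neg hu]
      exact hG' u (hout u hu)
  have hdel : ∀ u, (del x : L2 d) u = if u = x then 1 else 0 := by
    intro u
    exact del_apply x u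
  have h1 : (z • (1 : Matrix Λ Λ ℂ) - HC V Λ).mulVec (fun v : Λ => φ v) =
      fun u : Λ => -(if (u : Site d) = x then 1 else 0) + b u := by
    funext u
    rw [mul_fun]
    have h2 := G_eq (V := V) hz (del x) u
    rw [hdel, ← hφ] at h2
    have h3 : lap φ u = lap (fun v => if v ∈ Λ then φ v else 0) u + b u := by
      rw [hb, ← lap_add]
      congr 1
      funext v
      by_cases hv : v ∈ Λ
      · rw [if_pos hv, if_pos hv, add_zero]
      · rw [if_neg hv, if_neg hv, zero_add]
    rw [h3] at h2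
    linear_combination -h2
  have h2 : (fun v : Λ => φ v) = (z • (1 : Matrix Λ Λ ℂ) - HC V Λ)⁻¹.mulVec
      (fun u : Λ => -(if (u : Site d) = x then 1 else 0) + b u) := by
    rw [← h1, Matrix.mulVec_mulVec, Matrix.nonsing_inv_mul _ (isUnit_iff_ne_zero.2 hdet),
      Matrix.one_mulVec]
  have h3 := congrFun h2 ⟨y, hy⟩
  have h4 : φ y = -gz V Λ z y x + ∑ v : Λ, gz V Λ z y v * b v := by
    rw [h3]
    simp only [Matrix.mulVec, dotProduct, mul_add, Finset.sum_add_distrib]
    congr 1
    · rw [Finset.sum_eq_single (⟨x, hx⟩ : Λ)]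
      · rw [if_pos rfl]
        unfold gz
        rw [dif_pos ⟨hy, hx⟩]
        ring
      · intro v _ hv
        rw [if_neg]
        · ring
        · intro h
          exact hv (Subtype.ext h)
      · intro h
        exact absurd (Finset.mem_univ _) h
    · apply Finset.sum_congr rfl
      intro v _
      unfold gz
      rw [dif_pos ⟨hy, v.2⟩]
  have h5 : gz V Λ z x y = -φ y + ∑ v : Λ, gz V Λ z y v * b v := by
    rw [gz_symm, h4]
    ring
  rw [h5]
  calc ‖-φ y + ∑ v : Λ, gz V Λ z y v * b v‖ ≤ ‖-φ y‖ + ‖∑ v : Λ, gz V Λ z y v * b v‖ :=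
        norm_add_le _ _
    _ ≤ ε + ∑ _v : Λ, η⁻¹ * (2 * d * ε) := by
        apply add_le_add
        · rw [norm_neg]
          exact hG' y hxy
        · refine (norm_sum_le _ _).trans (Finset.sum_le_sum fun v _ => ?_)
          rw [norm_mul]
          exact mul_le_mul (hbd v) (hb2 v) (norm_nonneg _) (by positivity)
    _ = ε * (1 + 2 * d * Λ.card / η) := by
        rw [Finset.sum_const, Finset.card_univ, Fintype.card_coe, nsmul_eq_mul]
        field_simp

end Pool.Agent.Mob.H65
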