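import Pool.Agent.Mob.Stmts2
import Pool.Agent.Helper65_Mob.Fvl
import Pool.Agent.Helper11_Mob.Gzb

/-!
# Module FV2: finite volume against infinite volume, at positive height, in the square mean
-/

set_option autoImplicit false

open MeasureTheory ProbabilityTheory Function

open scoped ENNReal BigOperators InnerProductSpace

noncomputable section

namespace Pool.Agent.Mob.H65

open Pool.Agent.Anderson Pool.Agent.Loc Pool.Agent.Helper54.Bal Pool.Agent.Mob

variable {d : ℕ}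

theorem norm_Lap_le (f : L2 d) : ‖Lap d f‖ ≤ 2 * d * ‖f‖ := by
  unfold Lap
  rw [ContinuousLinearMap.sum_apply]
  refine (norm_sum_le _ _).trans ?_
  calc ∑ i : Fin d, ‖((shift (Pi.single i 1)).toContinuousLinearMap +
        (shift (-Pi.single i 1)).toContinuousLinearMap) f‖ ≤ ∑ _i : Fin d, 2 * ‖f‖ := by
        apply Finset.sum_le_sum
        intro i _
        rw [ContinuousLinearMap.add_apply]
        refine (norm_add_le _ _).trans ?_
        rw [LinearIsometry.coe_toContinuousLinearMap, LinearIsometry.coe_toContinuousLinearMap,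
          LinearIsometry.norm_map, LinearIsometry.norm_map]
        linarith
    _ = 2 * d * ‖f‖ := by
        rw [Finset.sum_const, Finset.card_univ, Fintype.card_fin, nsmul_eq_mul]
        ring

theorem sum_le_norm (Λ : Finset (Site d)) (f : L2 d) : ∑ v : Λ, ‖f v‖ ^ 2 ≤ ‖f‖ ^ 2 := by
  rw [L2.norm_sq, Finset.sum_coe_sort Λ (fun v => ‖f v‖ ^ 2)]
  exact (L2.summable_sq f).sum_le_tsum Λ fun v _ => by positivity

/-- the expansion of the finite volume resolvent -/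
theorem gz_expand (hgzb : GzbStmt) (V : Site d → ℝ) (Λ : Finset (Site d)) (z : ℂ)
    (hz : z.im ≠ 0) (x y : Site d) (hx : x ∈ Λ) (hy : y ∈ Λ) (φ : L2 d)
    (hφ : φ = G V z (del x)) (b : Site d → ℂ)
    (hb : b = lap (fun v => if v ∈ Λ then 0 else φ v)) :
    gz V Λ z x y = -φ y +
      (z • (1 : Matrix Λ Λ ℂ) - HC V Λ)⁻¹.mulVec (fun v : Λ => b v) ⟨y, hy⟩ := by
  have hdet := ((hgzb d V Λ x y).2.1 z hz).1
  have h1 : (z • (1 : Matrix Λ Λ ℂ) - HC V Λ).mulVec (fun v : Λ => φ v) =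
      fun u : Λ => -(if (u : Site d) = x then 1 else 0) + b u := by
    funext u
    rw [mul_fun]
    have h2 := G_eq (V := V) hz (del x) u
    rw [del_apply, ← hφ] at h2
    have h3 : lap φ u = lap (fun v => if v ∈ Λ then φ v else 0) u + b u := by
      rw [hb, ← lap_add]
      congr 1
      funext v
      by_cases hv : v ∈ Λ
      · rw [if_pos hv, if_pos hv, add_zero]
      · rw [if_neg hv, if_neg hv, zero_add]
    rw [h3] at h2
    linear_combination -h2
  have h2 : (fun v : Λ => φ v) = (z • (1 : Matrix Λ Λ ℂ) - HC V Λ)⁻¹.mulVec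
      (fun u : Λ => -(if (u : Site d) = x then 1 else 0) + b u) := by
    rw [← h1, Matrix.mulVec_mulVec, Matrix.nonsing_inv_mul _ (isUnit_iff_ne_zero.2 hdet),
      Matrix.one_mulVec]
  have h3 := congrFun h2 ⟨y, hy⟩
  have h4 : φ y = -gz V Λ z y x +
      (z • (1 : Matrix Λ Λ ℂ) - HC V Λ)⁻¹.mulVec (fun v : Λ => b v) ⟨y, hy⟩ := by
    rw [h3]
    simp only [Matrix.mulVec, dotProduct, mul_add, Finset.sum_add_distrib]
    congr 1
    rw [Finset.sum_eq_single (⟨x, hx⟩ : Λ)]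
    · rw [if_pos rfl]
      unfold gz
      rw [dif_pos ⟨hy, hx⟩]
      ring
    · intro v _ hv
      rw [if_neg]
      · ring
      · intro h
        exact hv (Subtype.ext h)
    · intro h
      exact absurd (Finset.mem_univ _) h
  rw [gz_symm, h4]
  ring

theorem fv2 (hgzb : GzbStmt) : Fv2Stmt := by
  intro d V Λ η E ℓ x hη hx hout
  obtain ⟨z, hzz⟩ : ∃ z, z = zz η E := ⟨_, rfl⟩
  rw [← hzz]
  have him : z.im = η := by
    rw [hzz]
    unfold zz
    simp
  have hz : z.im ≠ 0 := by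
    rw [him]
    exact hη.ne'
  obtain ⟨φ, hφ⟩ : ∃ φ : L2 d, φ = G V z (del x) := ⟨_, rfl⟩
  rw [← hφ]
  -- the tail of the infinite volume Green function
  obtain ⟨s, hs⟩ : ∃ s : Site d → ℝ, s = fun u => if ℓ ≤ sd x u then ‖φ u‖ ^ 2 else 0 := ⟨_, rfl⟩
  have hs0 : ∀ u, 0 ≤ s u := by
    intro u
    rw [hs]
    simp only
    split_ifs
    · positivity
    · exact le_rfl
  have hsum : Summable s := by
    refine Summable.of_nonneg_of_le hs0 (fun u => ?_) (L2.summable_sq φ)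
    rw [hs]
    simp only
    split_ifs
    · exact le_rfl
    · positivity
  obtain ⟨S, hS⟩ : ∃ S : ℝ, S = ∑' u, s u := ⟨_, rfl⟩
  have hS0 : 0 ≤ S := by
    rw [hS]
    exact tsum_nonneg hs0
  have hR : (∑' u : Site d, if ℓ ≤ sd x u then ENNReal.ofReal (‖φ u‖ ^ 2) else 0) =
      ENNReal.ofReal S := by
    rw [hS, ENNReal.ofReal_tsum_of_nonneg hs0 hsum]
    apply tsum_congr
    intro u
    rw [hs]
    simp only
    split_ifs
    · rfl
    · rw [ENNReal.ofReal_zero]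
  -- the part of the Green function outside
  have hmem : Memℓp (fun u : Site d => if u ∈ Λ then (0 : ℂ) else φ u) 2 := by
    rw [memℓp_iff]
    refine Summable.of_nonneg_of_le (fun u => by positivity) (fun u => ?_) (L2.summable_sq φ)
    split_ifs
    · rw [norm_zero, zero_pow two_ne_zero]
      exact sq_nonneg _
    · exact le_rfl
  obtain ⟨ψ, hψ⟩ : ∃ ψ : L2 d, ψ = ⟨_, hmem⟩ := ⟨_, rfl⟩
  have hψa : ∀ u, ψ u = if u ∈ Λ then (0 : ℂ) else φ u := by
    intro u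
    rw [hψ]
  have hψ2 : ‖ψ‖ ^ 2 ≤ S := by
    rw [L2.norm_sq, hS]
    refine Summable.tsum_le_tsum (fun u => ?_) (L2.summable_sq ψ) hsum
    rw [hψa, hs]
    simp only
    by_cases hu : u ∈ Λ
    · rw [if_pos hu, norm_zero, zero_pow two_ne_zero]
      split_ifs
      · exact sq_nonneg _
      · exact le_rfl
    · rw [if_neg hu, if_pos (hout u hu)]
  obtain ⟨b, hb⟩ : ∃ b : Site d → ℂ, b = lap (fun v => if v ∈ Λ then 0 else φ v) := ⟨_, rfl⟩
  have hbL : ∀ v, b v = Lap d ψ v := by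
    intro v
    rw [Lap_apply, hb]
    congr 1
    funext u
    exact (hψa u).symm
  -- the Euclidean vectors
  obtain ⟨w, hw⟩ : ∃ w : Λ → ℂ, w = (z • (1 : Matrix Λ Λ ℂ) - HC V Λ)⁻¹.mulVec
    (fun v : Λ => b v) := ⟨_, rfl⟩
  have hdet := ((hgzb d V Λ x x).2.1 z hz).1
  have hexp : ∀ y : Λ, gz V Λ z x y = -φ y + w y := by
    intro y
    rw [hw]
    exact gz_expand hgzb V Λ z hz x y hx y.2 φ hφ b hb
  have hnb : ‖(WithLp.toLp 2 (fun v : Λ => b v) : EuclideanSpace ℂ Λ)‖ ≤ 2 * d * √S := by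
    rw [EuclideanSpace.norm_eq]
    have h1 : ∑ v : Λ, ‖b v‖ ^ 2 ≤ (2 * d * √S) ^ 2 := by
      calc ∑ v : Λ, ‖b v‖ ^ 2 = ∑ v : Λ, ‖Lap d ψ v‖ ^ 2 :=
            Finset.sum_congr rfl fun v _ => by rw [hbL]
        _ ≤ ‖Lap d ψ‖ ^ 2 := sum_le_norm Λ _
        _ ≤ (2 * d * ‖ψ‖) ^ 2 := pow_le_pow_left₀ (norm_nonneg _) (norm_Lap_le ψ) 2
        _ = (2 * d) ^ 2 * ‖ψ‖ ^ 2 := by ring
        _ ≤ (2 * d) ^ 2 * S := by gcongr
        _ = (2 * d * √S) ^ 2 := by rw [mul_pow _ (√S), Real.sq_sqrt hS0]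
    exact Real.sqrt_le_iff.2 ⟨by positivity, h1⟩
  have hnw : η * ‖(WithLp.toLp 2 w : EuclideanSpace ℂ Λ)‖ ≤ 2 * d * √S := by
    have h : ∀ j, η ≤ ‖z - ((HC_herm V Λ).eigenvalues j : ℂ)‖ := by
      intro j
      have := Complex.abs_im_le_norm (z - ((HC_herm V Λ).eigenvalues j : ℂ))
      rw [Complex.sub_im, Complex.ofReal_im, sub_zero, him, abs_of_pos hη] at this
      exact this
    have h1 := H11.norm_ge (HC V Λ) (HC_herm V Λ) z η hη.le h (WithLp.toLp 2 w)
    rw [H11.lin_eq, hw, Matrix.mulVec_mulVec, Matrix.mul_nonsing_inv _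
      (isUnit_iff_ne_zero.2 hdet), Matrix.one_mulVec, ← hw] at h1
    exact h1.trans hnb
  obtain ⟨F, hF⟩ : ∃ F : EuclideanSpace ℂ Λ, F = WithLp.toLp 2
    (fun y : Λ => if ℓ ≤ sd x y then -φ y else 0) := ⟨_, rfl⟩
  obtain ⟨W, hW⟩ : ∃ W : EuclideanSpace ℂ Λ, W = WithLp.toLp 2
    (fun y : Λ => if ℓ ≤ sd x y then w y else 0) := ⟨_, rfl⟩
  have hFn : ‖F‖ ≤ √S := by
    rw [EuclideanSpace.norm_eq]
    apply Real.sqrt_le_sqrt
    calc ∑ y : Λ, ‖F y‖ ^ 2 = ∑ y : Λ, s y := by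
          apply Finset.sum_congr rfl
          intro y _
          rw [hF, hs]
          simp only
          split_ifs
          · rw [norm_neg]
          · simp
      _ = ∑ y ∈ Λ, s y := Finset.sum_coe_sort Λ s
      _ ≤ S := by
          rw [hS]
          exact hsum.sum_le_tsum Λ fun v _ => hs0 v
  have hWn : ‖W‖ ≤ ‖(WithLp.toLp 2 w : EuclideanSpace ℂ Λ)‖ := by
    rw [EuclideanSpace.norm_eq, EuclideanSpace.norm_eq]
    apply Real.sqrt_le_sqrt
    apply Finset.sum_le_sum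
    intro y _
    rw [hW]
    simp only
    split_ifs
    · exact le_rfl
    · rw [norm_zero, zero_pow two_ne_zero]
      exact sq_nonneg _
  have hFW : ‖F + W‖ ≤ (1 + 2 * d / η) * √S := by
    have h1 : ‖W‖ ≤ 2 * d * √S / η := by
      rw [le_div_iff₀ hη, mul_comm]
      exact (mul_le_mul_of_nonneg_left hWn hη.le).trans hnw
    calc ‖F + W‖ ≤ ‖F‖ + ‖W‖ := norm_add_le _ _
      _ ≤ √S + 2 * d * √S / η := add_le_add hFn h1
      _ = (1 + 2 * d / η) * √S := by ring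
  have hmain : ∑ y ∈ Λ.filter (fun y => ℓ ≤ sd x y), ‖gz V Λ z x y‖ ^ 2 ≤
      (1 + 2 * d / η) ^ 2 * S := by
    calc ∑ y ∈ Λ.filter (fun y => ℓ ≤ sd x y), ‖gz V Λ z x y‖ ^ 2
        = ∑ y ∈ Λ, if ℓ ≤ sd x y then ‖gz V Λ z x y‖ ^ 2 else 0 := Finset.sum_filter _ _
      _ = ∑ y : Λ, if ℓ ≤ sd x y then ‖gz V Λ z x y‖ ^ 2 else 0 :=
          (Finset.sum_coe_sort Λ (fun y => if ℓ ≤ sd x y then ‖gz V Λ z x y‖ ^ 2 else 0)).symm
      _ = ∑ y : Λ, ‖(F + W) y‖ ^ 2 := by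
          apply Finset.sum_congr rfl
          intro y _
          rw [PiLp.add_apply, hF, hW]
          simp only
          split_ifs
          · rw [hexp y]
          · simp
      _ = ‖F + W‖ ^ 2 := (EuclideanSpace.norm_sq_eq _).symm
      _ ≤ ((1 + 2 * d / η) * √S) ^ 2 := pow_le_pow_left₀ (norm_nonneg _) hFW 2
      _ = (1 + 2 * d / η) ^ 2 * S := by rw [mul_pow, Real.sq_sqrt hS0]
  rw [hR, ← ENNReal.ofReal_sum_of_nonneg fun y _ => by positivity,
    ← ENNReal.ofReal_mul (by positivity)]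
  exact ENNReal.ofReal_le_ofReal hmain

end Pool.Agent.Mob.H65
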